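import Pool.Agent.Helper54.GA.Stmts3
import Pool.Agent.Helper34.GA.G7
import Pool.Agent.Helper8.CO.Den

/-!
# GA-M2: the first moment for one difference

`m2`: for `ρ ∣ h`, `|h| ≤ w` and `2 ^ k ≤ x` at most `C x √((1 + log w) / k)` of the `0 < n ≤ x` have not merged with `n + h` at the time `k`: the rate for a
pair (G7) and `CO.den`.
-/

set_option autoImplicit false

namespace Pool.Agent.Helper9.GA

open Pool.Agent.Helper68.Moeller Pool.Agent.Helper8 Pool.Agent.Helper8.CO Pool.Agent.Helper8.ND Pool.Agent.Helper54.GA Finset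

open Classical in
theorem m2 : StmtM2 := by
  intro ρ hρ
  obtain ⟨C, hC, h7⟩ := Pool.Agent.Helper34.GA.G7
  refine ⟨2 * C, by positivity, fun k x w h hk hkx hw hd hh => ?_⟩
  have hx0 : 0 < x := lt_of_lt_of_le (by positivity) hkx
  have hρ0 : ρ ≠ 0 := by
    rintro rfl
    exact absurd hρ (by decide)
  have hρ1 : (1 : ℝ) ≤ |(ρ : ℝ)| := by
    have : (1 : ℤ) ≤ |ρ| := Int.one_le_abs hρ0
    exact_mod_cast this
  obtain ⟨η, rfl⟩ := hd
  have hη : |(η : ℝ)| ≤ w := by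
    refine le_trans ?_ hh
    push_cast
    rw [abs_mul]
    exact le_mul_of_one_le_left (abs_nonneg _) hρ1
  obtain ⟨N, hN⟩ : ∃ N : ℕ, N = ⌊x⌋₊ := ⟨_, rfl⟩
  have hNle : (N : ℝ) ≤ x := by rw [hN]; exact Nat.floor_le hx0.le
  obtain ⟨R, hR⟩ : ∃ R : ℝ, R = Real.sqrt ((1 + Real.log w) / k) := ⟨_, rfl⟩
  have hR0 : 0 ≤ R := by rw [hR]; exact Real.sqrt_nonneg _
  have h5 := h7 k η w hk hw hη
  rw [← hR] at h5 ⊢
  have h6 := den hρ η k 0 N
  have h8 : (0 : ℝ) ≤ (N : ℝ) + 2 ^ k := by positivity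
  have hcN : cN {n : ℤ | ¬ MM ρ k 0 n (n + ρ * η)} x ≤
      (((Ioc (0 : ℤ) (0 + N)).filter (fun n => ¬ MM ρ k 0 n (n + ρ * η))).card : ℝ) := by
    unfold cN
    refine Nat.cast_le.2 ?_
    rw [← Set.ncard_coe_finset]
    refine Set.ncard_le_ncard (fun n hn => ?_) (Finset.finite_toSet _)
    obtain ⟨h1, h2, h3⟩ := hn
    have hnx : n ≤ (N : ℤ) := by
      rw [hN, Int.natCast_floor_eq_floor hx0.le]
      exact Int.le_floor.2 h3
    rw [Finset.mem_coe, Finset.mem_filter, Finset.mem_Ioc]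
    exact ⟨⟨h2, by omega⟩, h1⟩
  calc cN {n : ℤ | ¬ MM ρ k 0 n (n + ρ * η)} x
      ≤ (((Ioc (0 : ℤ) (0 + N)).filter (fun n => ¬ MM ρ k 0 n (n + ρ * η))).card : ℝ) := hcN
    _ ≤ (N + 2 ^ k) * uu k (0, η) := by
        refine le_trans (le_of_eq ?_) h6
        congr!
    _ ≤ (N + 2 ^ k) * (C * R) := mul_le_mul_of_nonneg_left h5 h8
    _ ≤ 2 * x * (C * R) := mul_le_mul_of_nonneg_right (by linarith) (by positivity)
    _ = 2 * C * R * x := by ring

end Pool.Agent.Helper9.GA
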