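import Pool.Agent.Helper54.GA.Stmts

/-! # Block G4 (MP_fd8838_nt): the conjecture of Gao, with a rate -/

set_option autoImplicit false

namespace Pool.Agent.Helper9.GA

open Pool.Agent.Helper68.Moeller Pool.Agent.Helper8 Pool.Agent.Helper8.CO Pool.Agent.Helper8.ND Filter
  Topology Pool.Agent.Helper54.GA Pool.Agent.Helper28

/-- `T^[t] n = Col^[t + s] n`, `s` the number of the odd points -/
theorem col_iter9 (t : ℕ) (n : ℤ) :
    Col^[t + cnt 2 3 (fun _ => -1) t n] n = (T 2 3 (fun _ => -1))^[t] n := by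
  induction t generalizing n with
  | zero => rfl
  | succ t ih =>
    rw [Function.iterate_succ_apply, ← ih (T 2 3 (fun _ => -1) n)]
    by_cases h : (2 : ℤ) ∣ n
    · have h1 : cnt 2 3 (fun _ => -1) (t + 1) n = cnt 2 3 (fun _ => -1) t (T 2 3 (fun _ => -1) n) := by
        show (if ((2 : ℕ) : ℤ) ∣ n then 0 else 1) + _ = _
        rw [if_pos (by exact_mod_cast h), zero_add]
      have h2 : T 2 3 (fun _ => -1) n = Col n := by
        unfold T Col
        rw [if_pos (by exact_mod_cast h), if_pos h]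
        rfl
      rw [h1, h2, show t + 1 + cnt 2 3 (fun _ => -1) t (Col n) =
        (t + cnt 2 3 (fun _ => -1) t (Col n)) + 1 by ring, Function.iterate_succ_apply]
    · have h1 : cnt 2 3 (fun _ => -1) (t + 1) n =
          1 + cnt 2 3 (fun _ => -1) t (T 2 3 (fun _ => -1) n) := by
        show (if ((2 : ℕ) : ℤ) ∣ n then 0 else 1) + _ = _
        rw [if_neg (by exact_mod_cast h)]
      have h2 : T 2 3 (fun _ => -1) n = Col (Col n) := by
        unfold T Col
        have h3 : (2 : ℤ) ∣ 3 * n + 1 := by omega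
        rw [if_neg (by exact_mod_cast h), if_neg h, if_pos h3]
        push_cast
        congr 1
      rw [h1, h2, show t + 1 + (1 + cnt 2 3 (fun _ => -1) t (Col (Col n))) =
        (t + cnt 2 3 (fun _ => -1) t (Col (Col n))) + 1 + 1 by ring, Function.iterate_succ_apply,
        Function.iterate_succ_apply]

theorem cnt_le9 (t : ℕ) (n : ℤ) : cnt 2 3 (fun _ => -1) t n ≤ t := by
  induction t generalizing n with
  | zero => exact le_rfl
  | succ t ih =>
    show (if ((2 : ℕ) : ℤ) ∣ n then 0 else 1) + _ ≤ _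
    have := ih (T 2 3 (fun _ => -1) n)
    split_ifs <;> omega

theorem merge9 {k : ℕ} {n : ℤ} (h : MM (-1) k 0 n (n + 1)) (hn : (4 : ℝ) ^ k ≤ n) :
    ∃ j : ℕ, (2 : ℝ) ^ j ≤ n ∧ Col^[j] n = Col^[j] (n + 1) := by
  obtain ⟨h1, h2⟩ := h
  rw [add_zero] at h2
  refine ⟨k + cnt 2 3 (fun _ => -1) k n, ?_, ?_⟩
  · have h3 : (2 : ℝ) ^ (k + cnt 2 3 (fun _ => -1) k n) ≤ 4 ^ k := by
      have h4 : (4 : ℝ) ^ k = 2 ^ (k + k) := by
        rw [← two_mul, pow_mul]
        norm_num
      rw [h4]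
      exact pow_le_pow_right₀ (by norm_num) (Nat.add_le_add_left (cnt_le9 k n) k)
    exact h3.trans hn
  · rw [col_iter9, h2, col_iter9]
    exact h1

/-- Block G4. -/
theorem g4 (H : StmtG1) : StmtG4 := by
  obtain ⟨C, hC, h⟩ := H (-1) ⟨-1, by norm_num⟩
  refine ⟨3 * C + 4, fun x hx => ?_⟩
  have hx0 : 0 < x := by linarith
  have hl2 := Real.log_two_gt_d9
  have hl2' := Real.log_two_lt_d9
  have hlx : 0 < Real.log x := Real.log_pos (by linarith)
  have hs0 : 0 < Real.sqrt (Real.log x) := Real.sqrt_pos.2 hlx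
  set A : Set ℤ := {n : ℤ | ¬ ∃ k : ℕ, (2 : ℝ) ^ k ≤ n ∧ Col^[k] n = Col^[k] (n + 1)} with hA
  rcases lt_or_ge x 16 with h16 | h16
  · -- small `x`
    have h1 : cN A x ≤ x := cN_le A hx0.le
    have h2 : Real.sqrt (Real.log x) ≤ 2 := by
      rw [Real.sqrt_le_left (by norm_num)]
      have h3 : Real.log x ≤ Real.log (2 ^ (4 : ℕ)) := Real.log_le_log hx0 (by norm_num; linarith)
      rw [Real.log_pow] at h3
      push_cast at h3
      linarith
    rw [le_div_iff₀ hs0]
    nlinarith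
  -- large `x`
  set k : ℕ := ⌊Real.log x / (4 * Real.log 2)⌋₊ with hk
  have hlog16 : 4 * Real.log 2 ≤ Real.log x := by
    have h3 : Real.log (2 ^ (4 : ℕ)) ≤ Real.log x := Real.log_le_log (by norm_num) (by norm_num; linarith)
    rw [Real.log_pow] at h3
    exact_mod_cast h3
  have hy1 : 1 ≤ Real.log x / (4 * Real.log 2) := by
    rw [le_div_iff₀ (by linarith)]
    linarith
  have hk1 : 1 ≤ k := by
    rw [hk]
    exact Nat.le_floor (by exact_mod_cast hy1)
  have hkle : (k : ℝ) ≤ Real.log x / (4 * Real.log 2) := Nat.floor_le (by positivity)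
  have hkge : Real.log x / (8 * Real.log 2) ≤ k := by
    have h1 : Real.log x / (4 * Real.log 2) < k + 1 := Nat.lt_floor_add_one _
    have h2 : (1 : ℝ) ≤ k := by exact_mod_cast hk1
    have h3 : Real.log x / (8 * Real.log 2) = Real.log x / (4 * Real.log 2) / 2 := by
      field_simp
      ring
    rw [h3]
    linarith
  have h4k : (4 : ℝ) ^ k ≤ Real.sqrt x := by
    have e1 : (4 : ℝ) ^ k = Real.exp (k * (2 * Real.log 2)) := by
      rw [show (k : ℝ) * (2 * Real.log 2) = Real.log 4 * k by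
        rw [show (4 : ℝ) = 2 ^ (2 : ℕ) by norm_num, Real.log_pow]; push_cast; ring,
        Real.exp_mul, Real.exp_log (by norm_num), Real.rpow_natCast]
    have e2 : Real.sqrt x = Real.exp (1 / 2 * Real.log x) := by
      rw [Real.sqrt_eq_rpow, Real.rpow_def_of_pos hx0, mul_comm]
    rw [e1, e2, Real.exp_le_exp]
    rw [le_div_iff₀ (by linarith)] at hkle
    linarith
  have h2k : (2 : ℝ) ^ k ≤ x := by
    have h1 : (2 : ℝ) ^ k ≤ 4 ^ k := by gcongr; norm_num
    have h2 : Real.sqrt x ≤ x := by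
      rw [Real.sqrt_le_left hx0.le]
      nlinarith
    linarith
  set B : Set ℤ := {n : ℤ | ∃ h : ℤ, (-1 : ℤ) ∣ h ∧ |(h : ℝ)| ≤ 1 ∧ ¬ MM (-1) k 0 n (n + h)} with hB
  have hG := h k x 1 hk1 h2k le_rfl
  have hsub : cN A x ≤ cN B x + Real.sqrt x := by
    have h1 : cN A x ≤ cN (B ∪ {n : ℤ | (n : ℝ) ≤ Real.sqrt x}) x := by
      refine POSB.cN_mono (fun n hn hn0 => ?_) x
      by_contra hcon
      rw [Set.mem_union, not_or] at hcon
      obtain ⟨h1, h2⟩ := hcon
      have h3 : MM (-1) k 0 n (n + 1) := by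
        by_contra h4
        exact h1 ⟨1, by norm_num, by norm_num, h4⟩
      have h4 : Real.sqrt x < n := not_le.1 h2
      exact hn (merge9 h3 (h4k.trans h4.le))
    refine h1.trans ((POSB.cN_union_le _ _ x).trans ?_)
    have h2 : cN {n : ℤ | (n : ℝ) ≤ Real.sqrt x} x ≤ Real.sqrt x := by
      have h3 : cN {n : ℤ | (n : ℝ) ≤ Real.sqrt x} x ≤ cN Set.univ (Real.sqrt x) := by
        unfold cN
        have h4 : {n : ℤ | n ∈ {n : ℤ | (n : ℝ) ≤ Real.sqrt x} ∧ 0 < n ∧ (n : ℝ) ≤ x} ⊆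
            {n : ℤ | n ∈ Set.univ ∧ 0 < n ∧ (n : ℝ) ≤ Real.sqrt x} :=
          fun n hn => ⟨trivial, hn.2.1, hn.1⟩
        exact_mod_cast Set.ncard_le_ncard h4 (finite_cN _ _)
      exact h3.trans (cN_le _ (Real.sqrt_nonneg x))
    linarith
  have hBx : cN B x ≤ C * (3 / Real.sqrt (Real.log x)) * x := by
    refine hG.trans ?_
    have h1 : min 1 ((1 + Real.log 1) / Real.sqrt k) ≤ 3 / Real.sqrt (Real.log x) := by
      refine (min_le_right _ _).trans ?_
      rw [Real.log_one, add_zero]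
      have hk0 : (0 : ℝ) < k := by exact_mod_cast hk1
      rw [div_le_div_iff₀ (Real.sqrt_pos.2 hk0) hs0, one_mul]
      have h2 : Real.log x ≤ 3 ^ 2 * k := by
        rw [div_le_iff₀ (by linarith)] at hkge
        nlinarith
      calc Real.sqrt (Real.log x) ≤ Real.sqrt (3 ^ 2 * k) := Real.sqrt_le_sqrt h2
        _ = 3 * Real.sqrt k := by
          rw [Real.sqrt_mul (by norm_num), Real.sqrt_sq (by norm_num)]
    gcongr
  have hsx : Real.sqrt x ≤ x / Real.sqrt (Real.log x) := by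
    rw [le_div_iff₀ hs0]
    have h1 : Real.sqrt (Real.log x) ≤ Real.sqrt x := by
      apply Real.sqrt_le_sqrt
      linarith [Real.log_le_sub_one_of_pos hx0]
    calc Real.sqrt x * Real.sqrt (Real.log x) ≤ Real.sqrt x * Real.sqrt x := by gcongr
      _ = x := Real.mul_self_sqrt hx0.le
  calc cN A x ≤ C * (3 / Real.sqrt (Real.log x)) * x + x / Real.sqrt (Real.log x) := by linarith
    _ = (3 * C + 1) * x / Real.sqrt (Real.log x) := by ring
    _ ≤ (3 * C + 4) * x / Real.sqrt (Real.log x) := by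
      gcongr
      norm_num

end Pool.Agent.Helper9.GA
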